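import Pool.Agent.Lib.PolyVdW.Int

/-!
Partition regularity over the integers of the pattern `Q(d) (x + P_i(d))`, for every nonzero `Q`.
-/

namespace Pool.Agent.Work.MP_5597c5_co.Parked.Dilated

open Polynomial

theorem result (k : ℕ) (Q : ℤ[X]) (P : Fin k → ℤ[X]) (hQ : Q ≠ 0)
    (hP : ∀ i, (P i).eval 0 = 0) (r : ℕ) (χ : {n : ℤ // n ≠ 0} → Fin r) :
    ∃ x d : ℤ, d ≠ 0 ∧ ∃ c : Fin r, ∀ i : Fin k,
      ∃ h : Q.eval d * (x + (P i).eval d) ≠ 0, χ ⟨Q.eval d * (x + (P i).eval d), h⟩ = c := by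
  classical
  let χ₀ : ℤ → Option (Fin r) := fun n => if h : n ≠ 0 then some (χ ⟨n, h⟩) else none
  obtain ⟨x, d, hd, hQd, h⟩ := Pool.Agent.Lib.PolyVdW.int_main Q hQ
    (insert X (Finset.univ.image P)) (by
      intro p hp
      rcases Finset.mem_insert.1 hp with rfl | hp
      · simp
      · obtain ⟨i, -, rfl⟩ := Finset.mem_image.1 hp
        exact hP i) χ₀
  have hx : Q.eval d * x ≠ 0 := by
    intro h0
    have h1 := h X (Finset.mem_insert_self _ _)
    have h2 : Q.eval d * (x + X.eval d) ≠ 0 := by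
      rw [mul_add, h0, zero_add, eval_X]
      exact mul_ne_zero hQd hd
    simp only [χ₀] at h1
    rw [dif_pos h2, dif_neg (not_not.2 h0)] at h1
    exact absurd h1 (by simp)
  refine ⟨x, d, hd, χ ⟨_, hx⟩, fun i => ?_⟩
  have h1 := h (P i) (Finset.mem_insert_of_mem (Finset.mem_image_of_mem _ (Finset.mem_univ i)))
  simp only [χ₀] at h1
  rw [dif_pos hx] at h1
  by_cases h2 : Q.eval d * (x + (P i).eval d) ≠ 0
  · rw [dif_pos h2] at h1
    exact ⟨h2, Option.some.inj h1⟩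
  · rw [dif_neg h2] at h1
    exact absurd h1 (by simp)

end Pool.Agent.Work.MP_5597c5_co.Parked.Dilated
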